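import Pool.Agent.U762.GA.Stm
import Pool.Agent.U898.RP.DET

set_option autoImplicit false

/-!
# Project GA, package DETc: the deterministic end game with the same constant
-/

namespace Pool.Agent.U733.GA

open Pool.Agent.U762.RP Pool.Agent.U898.RP.DET Finset

theorem t_DETc : Pool.Agent.U762.GA.S_DETc := by
  intro d m r M c ω hc hfin
  set f : ℤ → ℤ := stp d m r ω with hf
  set L : ℤ → ℕ := fun x => ⌈c * Real.log (2 + |(x : ℝ)|)⌉₊ with hL
  set F : Set ℤ := {x : ℤ | Long d m r M (L x) x ω} ∪ {x : ℤ | |(x : ℝ)| < M} with hFdef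
  have hF2 : {x : ℤ | |(x : ℝ)| < M}.Finite := by
    refine (Set.finite_Icc (-⌈M⌉) ⌈M⌉).subset ?_
    intro x hx
    have hx' : |(x : ℝ)| < M := hx
    rw [abs_lt] at hx'
    constructor
    · have : ((-⌈M⌉ : ℤ) : ℝ) ≤ x := by
        push_cast
        have := Int.le_ceil M
        linarith [hx'.1]
      exact_mod_cast this
    · have : (x : ℝ) ≤ (⌈M⌉ : ℝ) := by
        have := Int.le_ceil M
        linarith [hx'.2]
      exact_mod_cast this
  have hF : F.Finite := hfin.union hF2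
  have hstep : ∀ x, x ∉ F → (∃ i, i ≤ L x ∧ f^[i] x ∈ F) ∨
      ∃ i j : ℕ, i < j ∧ j ≤ L x ∧ f^[i] x = f^[j] x := by
    intro x hx
    have hx1 : ¬ Long d m r M (L x) x ω := fun h => hx (Or.inl h)
    by_contra hcon
    push Not at hcon
    apply hx1
    refine ⟨?_, ?_⟩
    · intro i hi
      by_contra hlt
      exact hcon.1 i hi (Or.inr (not_le.mp hlt))
    · intro i j hij hj he
      exact hcon.2 i j hij hj he
  obtain ⟨D, hD⟩ := orb_card f L F hF hstep
  refine ⟨(D : ℝ) + 1, ?_⟩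
  intro x
  have hfinx := orb_finite f L F hF hstep x
  have hlog : 0 ≤ Real.log (2 + |(x : ℝ)|) := Real.log_nonneg (by linarith [abs_nonneg (x : ℝ)])
  have hLx : (L x : ℝ) ≤ c * Real.log (2 + |(x : ℝ)|) + 1 :=
    (Nat.ceil_lt_add_one (a := c * Real.log (2 + |(x : ℝ)|)) (by positivity)).le
  refine ⟨hfinx, ?_⟩
  have h1 : ((orb f x).ncard : ℝ) ≤ (L x : ℝ) + D := by exact_mod_cast hD x
  show ((orb f x).ncard : ℝ) ≤ _
  linarith

end Pool.Agent.U733.GA
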